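import Pool.Agent.Q23.DD.Rat

/-!
# Exponentials of polynomials, logarithms and exponential integrals
-/

set_option autoImplicit false

open Polynomial Filter Topology

namespace Pool.Agent.Q23.DD

theorem poly_ev_ne {Q : ℂ[X]} (hQ : Q ≠ 0) (z0 : ℂ) : ∀ᶠ z in 𝓝[≠] z0, Q.eval z ≠ 0 := by
  have hfin : {x | Q.IsRoot x}.Finite := by
    by_contra h
    exact hQ (Polynomial.eq_zero_of_infinite_isRoot Q h)
  have h2 : ({x | Q.IsRoot x} \ {z0})ᶜ ∈ 𝓝 z0 := by
    refine IsOpen.mem_nhds ?_ ?_
    · exact (hfin.subset Set.sdiff_subset).isClosed.isOpen_compl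
    · simp
  filter_upwards [nhdsWithin_le_nhds h2, self_mem_nhdsWithin] with z hz hz' hz''
  exact hz ⟨hz'', hz'⟩

theorem iota_div {z0 : ℂ} (P Q : ℂ[X]) (hQ : Q ≠ 0) :
    (iota (algebraMap ℂ[X] KC P / algebraMap ℂ[X] KC Q) : GM z0) =
      mk (fun z => P.eval z / Q.eval z) ((poly_mer P).div (poly_mer Q)) := by
  have h1 : (iota (algebraMap ℂ[X] KC P / algebraMap ℂ[X] KC Q) : GM z0) * phi Q = phi P := by
    rw [← iota_poly, ← iota_poly, ← map_mul, div_mul_cancel₀ _ (alg_ne hQ)]
  refine (phi_unit hQ).mul_left_injective ?_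
  show _ * phi Q = _ * phi Q
  rw [h1]
  show mk (fun z => P.eval z) (poly_mer P) = _ * mk (fun z => Q.eval z) (poly_mer Q)
  rw [mk_mul, mk_eq]
  filter_upwards [poly_ev_ne hQ z0] with z hz
  show P.eval z = P.eval z / Q.eval z * Q.eval z
  rw [div_mul_cancel₀ _ hz]

/-- indices of the integrals -/
abbrev Ik {s : ℕ} (Q : Fin s → ℂ[X]) (d r : ℕ) : Type :=
  {x : Fin s × Fin d // (x.2 : ℕ) + 2 ≤ (Q x.1).natDegree} ⊕ (Fin s × Fin r)

/-- the polynomial of an index -/
def pidx {s d r : ℕ} {Q : Fin s → ℂ[X]} : Ik Q d r → Fin s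
  | Sum.inl x => x.1.1
  | Sum.inr x => x.1

/-- the coefficient `a` -/
noncomputable def acoef {s d r : ℕ} {Q : Fin s → ℂ[X]} (w : Fin r → ℂ) : Ik Q d r → KC
  | Sum.inl x => algebraMap ℂ[X] KC (X ^ (x.1.2 : ℕ))
  | Sum.inr x => algebraMap ℂ[X] KC 1 / algebraMap ℂ[X] KC (X - C (w x.2))

/-- the factor -/
noncomputable def afun {s d r : ℕ} {Q : Fin s → ℂ[X]} (w : Fin r → ℂ) : Ik Q d r → ℂ → ℂ
  | Sum.inl x, z => z ^ (x.1.2 : ℕ)
  | Sum.inr x, z => 1 / (z - w x.2)

theorem acoef_mk {z0 : ℂ} {s d r : ℕ} {Q : Fin s → ℂ[X]} (w : Fin r → ℂ) (x : Ik Q d r) :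
    ∃ h, (iota (acoef w x) : GM z0) = mk (afun w x) h := by
  rcases x with x | x
  · refine ⟨?_, ?_⟩
    · exact (analyticAt_id.pow _).meromorphicAt
    · show (iota (algebraMap ℂ[X] KC (X ^ (x.1.2 : ℕ))) : GM z0) = _
      rw [iota_poly]
      show mk (fun z => (X ^ (x.1.2 : ℕ) : ℂ[X]).eval z) (poly_mer _) = _
      rw [mk_eq]
      exact Eventually.of_forall fun z => by simp [afun]
  · refine ⟨?_, ?_⟩
    · exact (MeromorphicAt.const 1 z0).div ((MeromorphicAt.id z0).sub (MeromorphicAt.const (w x.2) z0))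
    · show (iota (algebraMap ℂ[X] KC 1 / algebraMap ℂ[X] KC (X - C (w x.2))) : GM z0) = _
      rw [iota_div _ _ (X_sub_C_ne_zero _), mk_eq]
      exact Eventually.of_forall fun z => by simp [afun]

theorem sum_alg {m : ℕ} (p : Fin m → ℂ[X]) (e e' : Fin m → ℕ) :
    ∑ j, algebraMap ℂ[X] KC (derivative (p j)) * e' j - ∑ j, algebraMap ℂ[X] KC (derivative (p j)) * e j =
      algebraMap ℂ[X] KC (derivative (∑ j, C (((e' j : ℤ) - (e j : ℤ) : ℤ) : ℂ) * p j)) := by
  rw [derivative_sum, map_sum, ← Finset.sum_sub_distrib]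
  refine Finset.sum_congr rfl fun j _ => ?_
  rw [derivative_C_mul, map_mul]
  push_cast
  simp only [map_sub, map_natCast]
  ring

/-- Independence of the solutions of `F' = -Q' F + a`, and of the exponentials. -/
theorem fam {m s d r : ℕ} (p : Fin m → ℂ[X]) (hp : ∀ k : Fin m → ℤ, (∑ j, C (k j : ℂ) * p j).natDegree = 0 → k = 0)
    (Q : Fin s → ℂ[X]) (hinj : ∀ l l', derivative (Q l) = derivative (Q l') → l = l')
    (w : Fin r → ℂ) (hw : Function.Injective w) (z0 : ℂ) (F : Ik Q d r → ℂ → ℂ) (hF : ∀ x, AnalyticAt ℂ (F x) z0)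
    (hD : ∀ x, ∀ᶠ z in 𝓝 z0, deriv (F x) z = -(derivative (Q (pidx x))).eval z * F x z + afun w x z) :
    Y124.LocInd (Sum.elim F (fun j z => Complex.exp ((p j).eval z))) z0 := by
  classical
  have hpol : ∀ j, AnalyticAt ℂ (fun z => Complex.exp ((p j).eval z)) z0 := fun j =>
    (AnalyticOnNhd.eval_polynomial (p j) z0 (Set.mem_univ _)).cexp
  have hu : ∀ y, AnalyticAt ℂ (Sum.elim F (fun j z => Complex.exp ((p j).eval z)) y) z0 := by
    rintro (x | j)
    · exact hF x
    · exact hpol j
  refine locInd_of_algInd _ hu ?_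
  have key := mixD (K := KC) (G := GM z0) (κ := Ik Q d r) (μ := Fin m) delta delta_mul D D_mul
    (fun x => (iota_delta x).symm) (fun x => mk (F x) (hF x).meromorphicAt)
    (fun x => algebraMap ℂ[X] KC (-derivative (Q (pidx x)))) (acoef w) ?_
    (fun j => mk (fun z => Complex.exp ((p j).eval z)) (hpol j).meromorphicAt)
    (fun j => algebraMap ℂ[X] KC (derivative (p j))) ?_ ?_ ?_ ?_
  · have h1 : (fun y => mk (Sum.elim F (fun j z => Complex.exp ((p j).eval z)) y) (hu y).meromorphicAt : _ → GM z0) =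
        Sum.elim (fun x => mk (F x) (hF x).meromorphicAt)
          (fun j => mk (fun z => Complex.exp ((p j).eval z)) (hpol j).meromorphicAt) := by
      funext y
      rcases y with x | j <;> rfl
    rw [h1]
    exact key
  · intro x
    obtain ⟨h, hh⟩ := acoef_mk (z0 := z0) w x
    show _ = iota _ * _ + iota _
    rw [iota_poly, hh, D_mk]
    show mk _ _ = mk (fun z => (-derivative (Q (pidx x))).eval z) (poly_mer _) * mk _ _ + mk _ _
    rw [mk_mul, mk_add, mk_eq]
    filter_upwards [nhdsWithin_le_nhds (hD x)] with z hz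
    show deriv (F x) z = (-derivative (Q (pidx x))).eval z * F x z + afun w x z
    rw [hz, eval_neg]
  · intro j
    show _ = iota _ * _
    rw [iota_poly, D_mk]
    show mk _ _ = mk (fun z => (derivative (p j)).eval z) (poly_mer _) * mk _ _
    rw [mk_mul, mk_eq]
    refine Eventually.of_forall fun z => ?_
    have h1 : HasDerivAt (fun z => Complex.exp ((p j).eval z)) (Complex.exp ((p j).eval z) * (derivative (p j)).eval z) z :=
      ((p j).hasDerivAt z).cexp
    show deriv (fun z => Complex.exp ((p j).eval z)) z = (derivative (p j)).eval z * Complex.exp ((p j).eval z)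
    rw [h1.deriv]
    ring
  · intro j
    refine isUnit_of_ne _ fun h => ?_
    obtain ⟨z, hz⟩ := h.exists
    exact Complex.exp_ne_zero _ hz
  · intro i0 c h hc0 hc hsum
    -- the coefficients are constants, and zero for other polynomials
    have h1 : ∀ x, ∃ γ : ℂ, c x = algebraMap ℂ[X] KC (C γ) ∧ (pidx x ≠ pidx i0 → γ = 0) := by
      intro x
      by_cases hcx : c x = 0
      · exact ⟨0, by simp [hcx], fun _ => rfl⟩
      · have h2 := hc x
        have h3 : algebraMap ℂ[X] KC (-derivative (Q (pidx i0))) - algebraMap ℂ[X] KC (-derivative (Q (pidx x))) =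
            algebraMap ℂ[X] KC (derivative (Q (pidx x)) - derivative (Q (pidx i0))) := by
          rw [map_neg, map_neg, map_sub]
          ring
        rw [h3] at h2
        obtain ⟨h4, γ, hγ⟩ := semi hcx h2
        refine ⟨γ, hγ, fun hne => absurd (hinj _ _ (sub_eq_zero.1 h4)) hne⟩
    choose γ hγ hγ0 using h1
    set l0 := pidx i0 with hl0
    -- the polynomial part
    let P : ℂ[X] := ∑ x : {x : Fin s × Fin d // (x.2 : ℕ) + 2 ≤ (Q x.1).natDegree},
      C (γ (Sum.inl x)) * X ^ (x.1.2 : ℕ)
    have hsum2 : ∑ i : Fin r, algebraMap ℂ[X] KC (C (γ (Sum.inr (l0, i)))) / algebraMap ℂ[X] KC (X - C (w i)) +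
        algebraMap ℂ[X] KC P = -(algebraMap ℂ[X] KC (derivative (Q l0)) * h) - delta h := by
      rw [Fintype.sum_sum_type] at hsum
      rw [map_neg, neg_mul] at hsum
      rw [← hsum, add_comm]
      congr 1
      · rw [map_sum]
        refine Finset.sum_congr rfl fun x _ => ?_
        rw [hγ, map_mul, mul_comm]
        rfl
      · rw [Fintype.sum_prod_type, Finset.sum_eq_single l0]
        · refine Finset.sum_congr rfl fun i _ => ?_
          rw [hγ]
          show _ = algebraMap ℂ[X] KC 1 / algebraMap ℂ[X] KC (X - C (w i)) * _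
          rw [map_one, one_div, div_eq_mul_inv, mul_comm]
        · intro l _ hl
          refine Finset.sum_eq_zero fun i _ => ?_
          rw [hγ, hγ0 (Sum.inr (l, i)) hl]
          simp
        · intro h
          exact absurd (Finset.mem_univ l0) h
    have hdeg : P ≠ 0 → P.natDegree < (derivative (Q l0)).natDegree := by
      intro hP
      obtain ⟨x, hx⟩ : ∃ x : {x : Fin s × Fin d // (x.2 : ℕ) + 2 ≤ (Q x.1).natDegree}, γ (Sum.inl x) ≠ 0 := by
        by_contra hcon
        push Not at hcon
        exact hP (Finset.sum_eq_zero fun x _ => by rw [hcon x]; simp)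
      have hx0 : x.1.1 = l0 := by
        by_contra hne
        exact hx (hγ0 (Sum.inl x) hne)
      have hx2 := x.2
      rw [hx0] at hx2
      have hd : (derivative (Q l0)).natDegree = (Q l0).natDegree - 1 := natDegree_derivative _
      have hle : P.natDegree ≤ (Q l0).natDegree - 2 := by
        refine natDegree_sum_le_of_forall_le _ _ fun y _ => ?_
        by_cases hy : γ (Sum.inl y) = 0
        · rw [hy]
          simp
        · have hy0 : y.1.1 = l0 := by
            by_contra hne
            exact hy (hγ0 (Sum.inl y) hne)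
          have hy2 := y.2
          rw [hy0] at hy2
          refine (natDegree_C_mul_X_pow_le _ _).trans ?_
          omega
      omega
    obtain ⟨hz1, hz2⟩ := noprim w hw (derivative (Q l0)) (fun i => γ (Sum.inr (l0, i))) P hdeg h hsum2
    apply hc0
    rw [hγ]
    have : γ i0 = 0 := by
      rcases i0 with x | ⟨l, i⟩
      · have h3 : P.coeff (x.1.2 : ℕ) = γ (Sum.inl x) := by
          simp only [P, finsetSum_coeff, coeff_C_mul, coeff_X_pow]
          rw [Finset.sum_eq_single x]
          · simp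
          · intro y _ hy
            by_cases hy0 : γ (Sum.inl y) = 0
            · rw [hy0, zero_mul]
            · have hy1 : y.1.1 = l0 := by
                by_contra hne
                exact hy0 (hγ0 (Sum.inl y) hne)
              have hne : (x.1.2 : ℕ) ≠ y.1.2 := by
                intro h
                apply hy
                apply Subtype.ext
                exact Prod.ext hy1 (Fin.ext h.symm)
              rw [if_neg hne, mul_zero]
          · intro h
            exact absurd (Finset.mem_univ x) h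
        rw [hz2, coeff_zero] at h3
        exact h3.symm
      · exact congrFun hz1 i
    rw [this]
    simp
  · intro e e' c hc0 hc
    rw [sum_alg] at hc
    obtain ⟨h1, -⟩ := semi hc0 hc
    have h2 := hp _ (natDegree_eq_zero_of_derivative_eq_zero h1)
    funext j
    have h3 := congrFun h2 j
    simp only [Pi.zero_apply] at h3
    omega

end Pool.Agent.Q23.DD
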