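import Pool.Agent.Q23.DD.Mix
import Pool.Agent.Y124.StdC

/-!
# Germs of meromorphic functions, and solutions of linear differential equations of order one over `ℂ(z)`
-/

set_option autoImplicit false

open Filter Topology Polynomial

namespace Pool.Agent.Q23.DD

/-- germs of meromorphic functions at `z0` -/
def GM (z0 : ℂ) : Subring (Germ (𝓝[≠] z0) ℂ) where
  carrier := {x | ∃ f : ℂ → ℂ, MeromorphicAt f z0 ∧ (f : Germ (𝓝[≠] z0) ℂ) = x}
  mul_mem' := by
    rintro _ _ ⟨f, hf, rfl⟩ ⟨g, hg, rfl⟩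
    exact ⟨f * g, hf.mul hg, Germ.coe_mul f g⟩
  one_mem' := ⟨fun _ => 1, MeromorphicAt.const 1 z0, rfl⟩
  add_mem' := by
    rintro _ _ ⟨f, hf, rfl⟩ ⟨g, hg, rfl⟩
    exact ⟨f + g, hf.add hg, Germ.coe_add f g⟩
  zero_mem' := ⟨fun _ => 0, MeromorphicAt.const 0 z0, rfl⟩
  neg_mem' := by
    rintro _ ⟨f, hf, rfl⟩
    exact ⟨-f, hf.neg, Germ.coe_neg f⟩

variable {z0 : ℂ}

/-- the germ of a function -/
noncomputable def mk (f : ℂ → ℂ) (hf : MeromorphicAt f z0) : GM z0 := ⟨(f : Germ (𝓝[≠] z0) ℂ), f, hf, rfl⟩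

theorem mk_eq {f g : ℂ → ℂ} {hf : MeromorphicAt f z0} {hg : MeromorphicAt g z0} :
    mk f hf = mk g hg ↔ f =ᶠ[𝓝[≠] z0] g := by
  rw [mk, mk, Subtype.mk_eq_mk]
  exact Germ.coe_eq

theorem mk_surj (x : GM z0) : ∃ f hf, x = mk f hf := by
  obtain ⟨x, f, hf, rfl⟩ := x
  exact ⟨f, hf, rfl⟩

theorem mk_add {f g : ℂ → ℂ} (hf : MeromorphicAt f z0) (hg : MeromorphicAt g z0) :
    mk f hf + mk g hg = mk (f + g) (hf.add hg) := rfl

theorem mk_mul {f g : ℂ → ℂ} (hf : MeromorphicAt f z0) (hg : MeromorphicAt g z0) :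
    mk f hf * mk g hg = mk (f * g) (hf.mul hg) := rfl

theorem mk_zero : mk (fun _ => 0) (MeromorphicAt.const 0 z0) = 0 := rfl

theorem mk_one : mk (fun _ => 1) (MeromorphicAt.const 1 z0) = 1 := rfl

instance : Nontrivial (GM z0) := by
  refine ⟨0, 1, fun h => ?_⟩
  rw [← mk_zero, ← mk_one, mk_eq] at h
  obtain ⟨z, hz⟩ := h.exists
  exact zero_ne_one hz

/-- nonzero germs are units -/
theorem isUnit_of_ne {f : ℂ → ℂ} (hf : MeromorphicAt f z0) (h : ¬ ∀ᶠ z in 𝓝[≠] z0, f z = 0) : IsUnit (mk f hf) := by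
  refine IsUnit.of_mul_eq_one (mk f⁻¹ hf.inv) ?_
  rw [mk_mul, ← mk_one, mk_eq]
  rcases hf.eventually_eq_zero_or_eventually_ne_zero with h1 | h1
  · exact absurd h1 h
  · filter_upwards [h1] with z hz
    simp [hz]

/-- a representative -/
noncomputable def rep (x : GM z0) : ℂ → ℂ := Classical.choose x.2

theorem rep_mer (x : GM z0) : MeromorphicAt (rep x) z0 := (Classical.choose_spec x.2).1

theorem mk_rep (x : GM z0) : mk (rep x) (rep_mer x) = x := Subtype.ext (Classical.choose_spec x.2).2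

/-- differentiation, as a map -/
noncomputable def D0 (x : GM z0) : GM z0 := mk (deriv (rep x)) (rep_mer x).deriv

theorem D0_mk {f : ℂ → ℂ} (hf : MeromorphicAt f z0) : D0 (mk f hf) = mk (deriv f) hf.deriv := by
  rw [D0, mk_eq]
  have h : rep (mk f hf) =ᶠ[𝓝[≠] z0] f := mk_eq.1 (mk_rep (mk f hf))
  exact h.nhdsNE_deriv

/-- differentiation -/
noncomputable def D : GM z0 →+ GM z0 where
  toFun := D0
  map_zero' := by
    rw [← mk_zero, D0_mk, mk_eq]
    exact Eventually.of_forall fun z => by simp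
  map_add' x y := by
    obtain ⟨f, hf, rfl⟩ := mk_surj x
    obtain ⟨g, hg, rfl⟩ := mk_surj y
    rw [mk_add, D0_mk, D0_mk, D0_mk, mk_add, mk_eq]
    filter_upwards [hf.eventually_analyticAt, hg.eventually_analyticAt] with z h1 h2
    exact deriv_add h1.differentiableAt h2.differentiableAt

theorem D_mk {f : ℂ → ℂ} (hf : MeromorphicAt f z0) : D (mk f hf) = mk (deriv f) hf.deriv := D0_mk hf

theorem D_mul (x y : GM z0) : D (x * y) = D x * y + x * D y := by
  obtain ⟨f, hf, rfl⟩ := mk_surj x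
  obtain ⟨g, hg, rfl⟩ := mk_surj y
  rw [mk_mul, D_mk, D_mk, D_mk, mk_mul, mk_mul, mk_add, mk_eq]
  filter_upwards [hf.eventually_analyticAt, hg.eventually_analyticAt] with z h1 h2
  exact deriv_mul h1.differentiableAt h2.differentiableAt

theorem poly_mer (P : ℂ[X]) : MeromorphicAt (fun z => P.eval z) z0 :=
  (AnalyticOnNhd.eval_polynomial P z0 (Set.mem_univ _)).meromorphicAt

/-- polynomials as germs -/
noncomputable def phi : ℂ[X] →+* GM z0 where
  toFun P := mk (fun z => P.eval z) (poly_mer P)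
  map_one' := by
    rw [← mk_one, mk_eq]
    exact Eventually.of_forall fun z => by simp
  map_mul' P Q := by
    rw [mk_mul, mk_eq]
    exact Eventually.of_forall fun z => by simp
  map_zero' := by
    rw [← mk_zero, mk_eq]
    exact Eventually.of_forall fun z => by simp
  map_add' P Q := by
    rw [mk_add, mk_eq]
    exact Eventually.of_forall fun z => by simp

theorem phi_unit {P : ℂ[X]} (hP : P ≠ 0) : IsUnit (phi P : GM z0) := by
  refine isUnit_of_ne (poly_mer P) fun h => hP ?_
  refine Polynomial.eq_zero_of_infinite_isRoot P ?_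
  intro hfin
  have h1 : ∀ᶠ z in 𝓝[≠] z0, z ∉ {x | P.IsRoot x} := by
    have h2 : ({x | P.IsRoot x} \ {z0})ᶜ ∈ 𝓝 z0 := by
      refine IsOpen.mem_nhds ?_ ?_
      · exact (hfin.subset Set.sdiff_subset).isClosed.isOpen_compl
      · simp
    filter_upwards [nhdsWithin_le_nhds h2, self_mem_nhdsWithin] with z hz hz' hz''
    exact hz ⟨hz'', hz'⟩
  obtain ⟨z, hz, hz'⟩ := (h.and h1).exists
  exact hz' hz

/-- the field of rational functions -/
abbrev KC : Type := FractionRing ℂ[X]

/-- rational functions as germs -/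
noncomputable def iota : KC →+* GM z0 :=
  IsLocalization.lift (M := nonZeroDivisors ℂ[X]) (g := phi) (fun y => phi_unit (nonZeroDivisors.ne_zero y.2))

noncomputable instance : Algebra KC (GM z0) := iota.toAlgebra

theorem iota_poly (P : ℂ[X]) : (iota (algebraMap ℂ[X] KC P) : GM z0) = phi P := IsLocalization.lift_eq _ _

theorem iota_inj : Function.Injective (iota : KC →+* GM z0) := iota.injective

theorem alg_inj : Function.Injective (algebraMap ℂ[X] KC) := IsFractionRing.injective ℂ[X] KC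

theorem alg_ne {Q : ℂ[X]} (hQ : Q ≠ 0) : algebraMap ℂ[X] KC Q ≠ 0 := fun h => hQ (alg_inj (by rw [h, map_zero]))

theorem D_phi (P : ℂ[X]) : D (phi P : GM z0) = phi (derivative P) := by
  show D (mk (fun z => P.eval z) (poly_mer P)) = mk (fun z => (derivative P).eval z) (poly_mer _)
  rw [D_mk, mk_eq]
  exact Eventually.of_forall fun z => by simp [Polynomial.deriv]

theorem D_iota (P Q : ℂ[X]) (hQ : Q ≠ 0) : D (iota (algebraMap ℂ[X] KC P / algebraMap ℂ[X] KC Q) : GM z0) =
    iota ((algebraMap ℂ[X] KC (derivative P * Q - P * derivative Q)) / algebraMap ℂ[X] KC Q ^ 2) := by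
  have hu : IsUnit (phi Q : GM z0) := phi_unit hQ
  have h1 : (iota (algebraMap ℂ[X] KC P / algebraMap ℂ[X] KC Q) : GM z0) * phi Q = phi P := by
    rw [← iota_poly, ← iota_poly, ← map_mul, div_mul_cancel₀ _ (alg_ne hQ)]
  have h2 := congrArg D h1
  rw [D_mul, D_phi, D_phi] at h2
  have h3 : (iota ((algebraMap ℂ[X] KC (derivative P * Q - P * derivative Q)) / algebraMap ℂ[X] KC Q ^ 2) : GM z0) *
      phi Q ^ 2 = phi (derivative P * Q - P * derivative Q) := by
    rw [← iota_poly, ← map_pow (iota : KC →+* GM z0), ← map_mul (iota : KC →+* GM z0),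
      div_mul_cancel₀ _ (pow_ne_zero 2 (alg_ne hQ)), iota_poly]
  refine (hu.pow 2).mul_left_injective ?_
  show D (iota (algebraMap ℂ[X] KC P / algebraMap ℂ[X] KC Q) : GM z0) * phi Q ^ 2 = _ * phi Q ^ 2
  rw [h3, map_sub, map_mul, map_mul, ← h1]
  linear_combination phi Q * h2

theorem exists_delta (x : KC) : ∃ y : KC, (iota y : GM z0) = D (iota x) := by
  obtain ⟨P, Q, hQ, rfl⟩ := IsFractionRing.div_surjective (A := ℂ[X]) x
  exact ⟨_, (D_iota P Q (nonZeroDivisors.ne_zero hQ)).symm⟩

/-- differentiation of rational functions -/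
noncomputable def delta : KC →+ KC where
  toFun x := Classical.choose (exists_delta (z0 := 0) x)
  map_zero' := by
    apply iota_inj (z0 := 0)
    rw [Classical.choose_spec (exists_delta (z0 := 0) 0), map_zero, map_zero]
  map_add' x y := by
    apply iota_inj (z0 := 0)
    rw [Classical.choose_spec (exists_delta (z0 := 0) _), map_add, map_add, map_add,
      Classical.choose_spec (exists_delta (z0 := 0) x), Classical.choose_spec (exists_delta (z0 := 0) y)]

theorem delta_div (P Q : ℂ[X]) (hQ : Q ≠ 0) : delta (algebraMap ℂ[X] KC P / algebraMap ℂ[X] KC Q) =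
    (algebraMap ℂ[X] KC (derivative P * Q - P * derivative Q)) / algebraMap ℂ[X] KC Q ^ 2 := by
  apply iota_inj (z0 := 0)
  rw [← D_iota P Q hQ]
  exact Classical.choose_spec (exists_delta (z0 := 0) _)

theorem iota_delta (x : KC) : (iota (delta x) : GM z0) = D (iota x) := by
  obtain ⟨P, Q, hQ, rfl⟩ := IsFractionRing.div_surjective (A := ℂ[X]) x
  rw [delta_div P Q (nonZeroDivisors.ne_zero hQ), D_iota P Q (nonZeroDivisors.ne_zero hQ)]

theorem delta_mul (x y : KC) : delta (x * y) = delta x * y + x * delta y := by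
  apply iota_inj (z0 := 0)
  rw [iota_delta, map_mul, D_mul, map_add, map_mul, map_mul, iota_delta, iota_delta]

theorem delta_poly (P : ℂ[X]) : delta (algebraMap ℂ[X] KC P) = algebraMap ℂ[X] KC (derivative P) := by
  have h := delta_div P 1 one_ne_zero
  simpa using h

/-- polynomials in `z` and the functions, as germs -/
theorem germ_eval {Z : Type} [Fintype Z] (u : Z → ℂ → ℂ) (hu : ∀ z, MeromorphicAt (u z) z0) (P : MvPolynomial (Option Z) ℂ)
    (hE : MeromorphicAt (fun t : ℂ => MvPolynomial.eval (fun o : Option Z => o.elim t fun z => u z t) P) z0) :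
    MvPolynomial.aeval (fun z => mk (u z) (hu z))
      (MvPolynomial.map (algebraMap ℂ[X] KC) (MvPolynomial.optionEquivRight ℂ Z P)) = mk _ hE := by
  let Ev : MvPolynomial (Option Z) ℂ →+* (ℂ → ℂ) :=
    RingHom.pi fun t : ℂ => MvPolynomial.eval (fun o : Option Z => o.elim t fun z => u z t)
  apply Subtype.ext
  let S : GM z0 →+* Germ (𝓝[≠] z0) ℂ := (GM z0).subtype
  have h : (S.comp ((MvPolynomial.aeval (fun z => mk (u z) (hu z)) : MvPolynomial Z KC →ₐ[KC] GM z0).toRingHom.comp
      (MvPolynomial.map (algebraMap ℂ[X] KC)))).comp (MvPolynomial.optionEquivRight ℂ Z).toAlgHom.toRingHom =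
      (Germ.coeRingHom (𝓝[≠] z0)).comp Ev := by
    refine MvPolynomial.ringHom_ext ?_ ?_
    · intro c
      have h1 : MvPolynomial.optionEquivRight ℂ Z (MvPolynomial.C c) = MvPolynomial.C (C c) := by simp
      show S (MvPolynomial.aeval (fun z => mk (u z) (hu z)) (MvPolynomial.map (algebraMap ℂ[X] KC)
        (MvPolynomial.optionEquivRight ℂ Z (MvPolynomial.C c)))) = _
      rw [h1, MvPolynomial.map_C, MvPolynomial.aeval_C]
      have h2 : algebraMap KC (GM z0) (algebraMap ℂ[X] KC (C c)) = phi (C c) := iota_poly _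
      rw [h2]
      show ((fun t : ℂ => (C c).eval t : ℂ → ℂ) : Germ (𝓝[≠] z0) ℂ) = ((Ev (MvPolynomial.C c) : ℂ → ℂ) : Germ (𝓝[≠] z0) ℂ)
      congr 1
      funext t
      show _ = MvPolynomial.eval _ (MvPolynomial.C c)
      simp
    · rintro (_ | z)
      · have h1 : MvPolynomial.optionEquivRight ℂ Z (MvPolynomial.X none) = MvPolynomial.C X :=
          MvPolynomial.optionEquivRight_X_none ℂ Z
        show S (MvPolynomial.aeval (fun z => mk (u z) (hu z)) (MvPolynomial.map (algebraMap ℂ[X] KC)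
          (MvPolynomial.optionEquivRight ℂ Z (MvPolynomial.X none)))) = _
        rw [h1, MvPolynomial.map_C, MvPolynomial.aeval_C]
        have h2 : algebraMap KC (GM z0) (algebraMap ℂ[X] KC X) = phi X := iota_poly _
        rw [h2]
        show ((fun t : ℂ => (X : ℂ[X]).eval t : ℂ → ℂ) : Germ (𝓝[≠] z0) ℂ) =
          ((Ev (MvPolynomial.X none) : ℂ → ℂ) : Germ (𝓝[≠] z0) ℂ)
        congr 1
        funext t
        show _ = MvPolynomial.eval _ (MvPolynomial.X none)
        simp
      · have h1 : MvPolynomial.optionEquivRight ℂ Z (MvPolynomial.X (some z)) = MvPolynomial.X z :=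
          MvPolynomial.optionEquivRight_X_some ℂ Z z
        show S (MvPolynomial.aeval (fun z => mk (u z) (hu z)) (MvPolynomial.map (algebraMap ℂ[X] KC)
          (MvPolynomial.optionEquivRight ℂ Z (MvPolynomial.X (some z))))) = _
        rw [h1, MvPolynomial.map_X, MvPolynomial.aeval_X]
        show ((u z : ℂ → ℂ) : Germ (𝓝[≠] z0) ℂ) = ((Ev (MvPolynomial.X (some z)) : ℂ → ℂ) : Germ (𝓝[≠] z0) ℂ)
        congr 1
        funext t
        show _ = MvPolynomial.eval _ (MvPolynomial.X (some z))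
        simp
  exact RingHom.congr_fun h P

/-- algebraic independence over the field of rational functions -/
theorem locInd_of_algInd {Z : Type} [Fintype Z] (u : Z → ℂ → ℂ) (hu : ∀ z, AnalyticAt ℂ (u z) z0)
    (h : AlgebraicIndependent KC (fun z => mk (u z) (hu z).meromorphicAt)) : Y124.LocInd u z0 := by
  intro P hP
  have hE : MeromorphicAt (fun t : ℂ => MvPolynomial.eval (fun o : Option Z => o.elim t fun z => u z t) P) z0 :=
    (MeromorphicAt.const 0 z0).congr (by
      filter_upwards [nhdsWithin_le_nhds hP] with t ht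
      exact ht.symm)
  have h1 := germ_eval u (fun z => (hu z).meromorphicAt) P hE
  have h2 : mk _ hE = (0 : GM z0) := by
    rw [← mk_zero, mk_eq]
    exact nhdsWithin_le_nhds hP
  rw [h2] at h1
  have h3 := (algebraicIndependent_iff.1 h) _ h1
  have h4 : MvPolynomial.optionEquivRight ℂ Z P = 0 := by
    apply MvPolynomial.map_injective _ alg_inj
    rw [h3, map_zero]
  exact (map_eq_zero_iff _ (MvPolynomial.optionEquivRight ℂ Z).injective).1 h4

end Pool.Agent.Q23.DD
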