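import Pool.Agent.Q23.DD.Fam

/-!
# Exponential integrals
-/

set_option autoImplicit false

open Filter Topology MvPolynomial

namespace Pool.Agent.Q23.DD

section Laurent

variable {κ μ : Type} [Fintype μ]

/-- the values with Laurent monomials -/
noncomputable def lau (n : κ → μ → ℤ) (f : κ → ℂ) (g : μ → ℂ) : κ ⊕ μ → ℂ
  | Sum.inl x => f x * ∏ j, g j ^ n x j
  | Sum.inr j => g j

/-- the fraction field -/
abbrev Fr (κ μ : Type) : Type := FractionRing (MvPolynomial (Option (κ ⊕ μ)) ℂ)

/-- the embedding -/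
noncomputable abbrev al (κ μ : Type) : MvPolynomial (Option (κ ⊕ μ)) ℂ →+* Fr κ μ := algebraMap _ _

/-- the images of the variables -/
noncomputable def tmv (n : κ → μ → ℤ) : Option (κ ⊕ μ) → Fr κ μ
  | none => al κ μ (X none)
  | some (Sum.inl x) => al κ μ (X (some (Sum.inl x))) * ∏ j, (al κ μ (X (some (Sum.inr j)))) ^ (-n x j)
  | some (Sum.inr j) => al κ μ (X (some (Sum.inr j)))

/-- the substitution in the field of fractions -/
noncomputable def tm (n : κ → μ → ℤ) : MvPolynomial (Option (κ ⊕ μ)) ℂ →+* Fr κ μ :=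
  eval₂Hom ((al κ μ).comp C) (tmv n)

/-- the product of the second variables -/
noncomputable def YY : MvPolynomial (Option (κ ⊕ μ)) ℂ := ∏ j : μ, X (some (Sum.inr j))

theorem clear_den (n : κ → μ → ℤ) (P : MvPolynomial (Option (κ ⊕ μ)) ℂ) :
    ∃ (N : ℕ) (R : MvPolynomial (Option (κ ⊕ μ)) ℂ), tm n R = al κ μ (YY ^ N * P) ∧
      ∀ (z : ℂ) (f : κ → ℂ) (g : μ → ℂ), (∀ j, g j ≠ 0) →
        eval (fun o : Option (κ ⊕ μ) => o.elim z fun x => Sum.elim f g x) R =
          (∏ j, g j) ^ N * eval (fun o : Option (κ ⊕ μ) => o.elim z fun x => lau n f g x) P := by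
  induction P using MvPolynomial.induction_on with
  | C c =>
    refine ⟨0, C c, ?_, ?_⟩
    · simp [tm]
    · intro z f g _
      simp
  | add P Q hP hQ =>
    obtain ⟨N1, R1, h1, h1'⟩ := hP
    obtain ⟨N2, R2, h2, h2'⟩ := hQ
    have hY : ∀ N, tm n (YY ^ N) = al κ μ (YY ^ N) := by
      intro N
      rw [map_pow, map_pow]
      congr 1
      simp [YY, tm, tmv, map_prod]
    have hYe : ∀ (z : ℂ) (f : κ → ℂ) (g : μ → ℂ),
        eval (fun o : Option (κ ⊕ μ) => o.elim z fun x => Sum.elim f g x) YY = ∏ j, g j := by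
      intro z f g
      simp [YY, map_prod]
    refine ⟨N1 + N2, YY ^ N2 * R1 + YY ^ N1 * R2, ?_, ?_⟩
    · rw [map_add, map_mul, map_mul, h1, h2, hY, hY, ← map_mul, ← map_mul, ← map_add]
      congr 1
      ring
    · intro z f g hg
      simp only [map_add, map_mul, map_pow, h1' z f g hg, h2' z f g hg, hYe]
      ring
  | mul_X P o hP =>
    obtain ⟨N1, R1, h1, h1'⟩ := hP
    suffices ∃ (N : ℕ) (R : MvPolynomial (Option (κ ⊕ μ)) ℂ), tm n R = al κ μ (YY ^ N * X o) ∧
        ∀ (z : ℂ) (f : κ → ℂ) (g : μ → ℂ), (∀ j, g j ≠ 0) →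
          eval (fun o : Option (κ ⊕ μ) => o.elim z fun x => Sum.elim f g x) R =
            (∏ j, g j) ^ N * eval (fun o : Option (κ ⊕ μ) => o.elim z fun x => lau n f g x) (X o) by
      obtain ⟨N2, R2, h2, h2'⟩ := this
      refine ⟨N1 + N2, R1 * R2, ?_, ?_⟩
      · rw [map_mul, h1, h2, ← map_mul]
        congr 1
        ring
      · intro z f g hg
        rw [map_mul, h1' z f g hg, h2' z f g hg, map_mul]
        ring
    rcases o with _ | (x | j)
    · exact ⟨0, X none, by simp [tm, tmv], fun z f g _ => by simp⟩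
    · obtain ⟨M, hM⟩ : ∃ M : ℕ, ∀ j, 0 ≤ (M : ℤ) + n x j := by
        refine ⟨∑ j, (n x j).natAbs, fun j => ?_⟩
        have h3 : (n x j).natAbs ≤ ∑ j, (n x j).natAbs :=
          Finset.single_le_sum (f := fun j => (n x j).natAbs) (fun _ _ => Nat.zero_le _) (Finset.mem_univ j)
        omega
      refine ⟨M, X (some (Sum.inl x)) * ∏ j, X (some (Sum.inr j)) ^ ((M : ℤ) + n x j).toNat, ?_, ?_⟩
      · have hX : ∀ j : μ, al κ μ (X (some (Sum.inr j))) ≠ 0 := fun j h =>
          X_ne_zero (R := ℂ) (some (Sum.inr j)) (IsFractionRing.injective _ (Fr κ μ) (by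
            have h' : al κ μ (X (some (Sum.inr j))) = al κ μ 0 := by rw [h, map_zero]
            exact h'))
        simp only [map_mul, map_prod, map_pow, YY]
        simp only [tm, tmv, coe_eval₂Hom, eval₂_X]
        rw [← Finset.prod_pow, mul_assoc, ← Finset.prod_mul_distrib, mul_comm]
        congr 1
        refine Finset.prod_congr rfl fun j _ => ?_
        rw [← zpow_natCast, Int.toNat_of_nonneg (hM j), ← zpow_add₀ (hX j), ← zpow_natCast]
        congr 1
        ring
      · intro z f g hg
        simp only [map_mul, map_prod, map_pow, eval_X, Option.elim_some, Sum.elim_inl, Sum.elim_inr, lau]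
        rw [← Finset.prod_pow]
        have h4 : ∀ j, g j ^ ((M : ℤ) + n x j).toNat = g j ^ M * g j ^ n x j := by
          intro j
          rw [← zpow_natCast, Int.toNat_of_nonneg (hM j), zpow_add₀ (hg j), zpow_natCast]
        rw [Finset.prod_congr rfl fun j _ => h4 j, Finset.prod_mul_distrib]
        ring
    · exact ⟨0, X (some (Sum.inr j)), by simp [tm, tmv], fun z f g _ => by simp [lau]⟩

theorem locInd_laurent (n : κ → μ → ℤ) (f : κ → ℂ → ℂ) (g : μ → ℂ → ℂ) (z0 : ℂ) (hg : ∀ j, ∀ᶠ z in 𝓝 z0, g j z ≠ 0)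
    (h : Y124.LocInd (Sum.elim f g) z0) :
    Y124.LocInd (Sum.elim (fun x z => f x z * ∏ j, g j z ^ n x j) g) z0 := by
  intro P hP
  obtain ⟨N, R, h1, h2⟩ := clear_den n P
  have h3 : R = 0 := by
    refine h R ?_
    have hall : ∀ᶠ z in 𝓝 z0, ∀ j, g j z ≠ 0 := by
      rw [eventually_all]
      exact hg
    filter_upwards [hP, hall] with z hz hz'
    have h4 := h2 z (fun x => f x z) (fun j => g j z) hz'
    have h5 : (fun o : Option (κ ⊕ μ) => o.elim z fun x => lau n (fun x => f x z) (fun j => g j z) x) =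
        fun o => o.elim z fun y => Sum.elim (fun x z => f x z * ∏ j, g j z ^ n x j) g y z := by
      funext o
      rcases o with _ | (x | j) <;> rfl
    have h6 : (fun o : Option (κ ⊕ μ) => o.elim z fun x => Sum.elim (fun x => f x z) (fun j => g j z) x) =
        fun o => o.elim z fun y => Sum.elim f g y z := by
      funext o
      rcases o with _ | (x | j) <;> rfl
    rw [h5, hz, mul_zero, h6] at h4
    exact h4
  rw [h3, map_zero] at h1
  have h7 : YY ^ N * P = 0 := IsFractionRing.injective _ (Fr κ μ) (by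
    have h' : al κ μ (YY ^ N * P) = al κ μ 0 := by rw [← h1, map_zero]
    exact h')
  refine (mul_eq_zero.1 h7).resolve_left (pow_ne_zero _ (Finset.prod_ne_zero_iff.2 fun j _ => X_ne_zero _))

end Laurent

/-- **Independence of exponentials, logarithms and exponential integrals.** -/
theorem expint {m s d r : ℕ} (p : Fin m → Polynomial ℂ)
    (hp : ∀ k : Fin m → ℤ, (∑ j, Polynomial.C (k j : ℂ) * p j).natDegree = 0 → k = 0)
    (n : Fin s → Fin m → ℤ) (hn : Function.Injective n) (Q : Fin s → Polynomial ℂ)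
    (hQ : ∀ l, Q l = ∑ j, Polynomial.C (n l j : ℂ) * p j)
    (w : Fin r → ℂ) (hw : Function.Injective w) (z0 : ℂ) (E : Ik Q d r → ℂ → ℂ) (hE : ∀ x, AnalyticAt ℂ (E x) z0)
    (hD : ∀ x, ∀ᶠ z in 𝓝 z0, deriv (E x) z = afun w x z * Complex.exp ((Q (pidx x)).eval z)) :
    Y124.LocInd (Sum.elim E (fun j z => Complex.exp ((p j).eval z))) z0 := by
  classical
  let F : Ik Q d r → ℂ → ℂ := fun x z => E x z * ∏ j, Complex.exp ((p j).eval z) ^ (-n (pidx x) j)
  have hprod : ∀ l z, ∏ j, Complex.exp ((p j).eval z) ^ (-n l j) = Complex.exp (-(Q l).eval z) := by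
    intro l z
    rw [hQ, Polynomial.eval_finsetSum, ← Finset.sum_neg_distrib, Complex.exp_sum]
    refine Finset.prod_congr rfl fun j _ => ?_
    rw [← Complex.exp_int_mul, Polynomial.eval_mul, Polynomial.eval_C]
    congr 1
    push_cast
    ring
  have hQan : ∀ l z, AnalyticAt ℂ (fun z => (Q l).eval z) z := fun l z =>
    AnalyticOnNhd.eval_polynomial (Q l) z (Set.mem_univ _)
  have hFe : ∀ x, F x = fun z => E x z * Complex.exp (-(Q (pidx x)).eval z) := by
    intro x
    funext z
    simp only [F]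
    rw [hprod]
  have hinj : ∀ l l', Polynomial.derivative (Q l) = Polynomial.derivative (Q l') → l = l' := by
    intro l l' h
    apply hn
    have h2 := hp (n l - n l') (by
      have h1 : ∑ j, Polynomial.C (((n l - n l') j : ℤ) : ℂ) * p j = Q l - Q l' := by
        rw [hQ, hQ, ← Finset.sum_sub_distrib]
        refine Finset.sum_congr rfl fun j _ => ?_
        simp only [Pi.sub_apply]
        push_cast
        rw [map_sub]
        ring
      rw [h1]
      exact Polynomial.derivative_eq_zero.1 (by rw [Polynomial.derivative_sub, h, sub_self]))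
    exact sub_eq_zero.1 h2
  have h1 := fam p hp Q hinj w hw z0 F (fun x => by
    rw [hFe]
    exact (hE x).mul ((hQan _ z0).neg.cexp)) (by
    intro x
    filter_upwards [hD x, (hE x).eventually_analyticAt] with z hz hz2
    have h2 : HasDerivAt (fun z => Complex.exp (-(Q (pidx x)).eval z))
        (Complex.exp (-(Q (pidx x)).eval z) * (-(Polynomial.derivative (Q (pidx x))).eval z)) z :=
      (((Q (pidx x)).hasDerivAt z).neg).cexp
    have h3 := hz2.differentiableAt.hasDerivAt.mul h2
    rw [hFe]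
    have h4 : deriv (fun z => E x z * Complex.exp (-(Q (pidx x)).eval z)) z = _ := h3.deriv
    have h5 : Complex.exp ((Q (pidx x)).eval z) * Complex.exp (-(Q (pidx x)).eval z) = 1 := by
      rw [← Complex.exp_add, add_neg_cancel, Complex.exp_zero]
    rw [h4, hz]
    linear_combination (afun w x z) * h5)
  have h2 := locInd_laurent (fun x j => n (pidx x) j) F (fun j z => Complex.exp ((p j).eval z)) z0
    (fun j => Eventually.of_forall fun z => Complex.exp_ne_zero _) h1
  have h3 : (fun (x : Ik Q d r) z => F x z * ∏ j, Complex.exp ((p j).eval z) ^ n (pidx x) j) = E := by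
    funext x z
    simp only [F]
    rw [mul_assoc, ← Finset.prod_mul_distrib]
    rw [Finset.prod_eq_one, mul_one]
    intro j _
    rw [← zpow_add₀ (Complex.exp_ne_zero _), neg_add_cancel, zpow_zero]
  rw [h3] at h2
  exact h2

end Pool.Agent.Q23.DD
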