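import Mathlib

/-!
# Solutions of linear differential equations of order one: algebraic independence

A form of the theorem of Kolchin and Ostrowski which allows inhomogeneous equations `D f = β f + a`.
-/

set_option autoImplicit false

open MvPolynomial

namespace Pool.Agent.Q23.DD

section Op

variable {ι K : Type} [Fintype ι] [DecidableEq ι] [Field K]

/-- applying an additive map to the coefficients -/
noncomputable def cmap (δ : K →+ K) (P : MvPolynomial ι K) : MvPolynomial ι K :=
  ∑ s ∈ P.support, monomial s (δ (coeff s P))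

theorem coeff_cmap (δ : K →+ K) (P : MvPolynomial ι K) (s : ι →₀ ℕ) : coeff s (cmap δ P) = δ (coeff s P) := by
  classical
  unfold cmap
  rw [coeff_sum]
  simp only [coeff_monomial]
  rw [Finset.sum_ite_eq']
  split_ifs with h
  · rfl
  · rw [notMem_support_iff.1 h, map_zero]

theorem cmap_add (δ : K →+ K) (P Q : MvPolynomial ι K) : cmap δ (P + Q) = cmap δ P + cmap δ Q := by
  ext s
  rw [coeff_cmap, coeff_add, coeff_add, coeff_cmap, coeff_cmap, map_add]

theorem cmap_C (δ : K →+ K) (c : K) : cmap δ (C c : MvPolynomial ι K) = C (δ c) := by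
  ext s
  rw [coeff_cmap, coeff_C, coeff_C]
  split_ifs <;> simp

theorem cmap_mul_X (δ : K →+ K) (P : MvPolynomial ι K) (x : ι) : cmap δ (P * X x) = cmap δ P * X x := by
  ext s
  rw [coeff_cmap, coeff_mul_X', coeff_mul_X', coeff_cmap]
  split_ifs <;> simp

theorem coeff_X_pderiv (P : MvPolynomial ι K) (x : ι) (s : ι →₀ ℕ) :
    coeff s (X x * pderiv x P) = (s x : K) * coeff s P := by
  rw [coeff_X_mul']
  split_ifs with h
  · rw [coeff_pderiv]
    have h1 : 1 ≤ s x := Nat.one_le_iff_ne_zero.2 (Finsupp.mem_support_iff.1 h)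
    rw [tsub_add_cancel_of_le (Finsupp.single_le_iff.2 h1), Finsupp.tsub_apply, Finsupp.single_eq_same]
    push_cast [h1]
    ring
  · rw [Finsupp.notMem_support_iff.1 h]
    simp

/-- the derivation of the polynomial ring -/
noncomputable def Del (δ : K →+ K) (β a : ι → K) (P : MvPolynomial ι K) : MvPolynomial ι K :=
  cmap δ P + ∑ x, (C (β x) * X x + C (a x)) * pderiv x P

theorem coeff_Del (δ : K →+ K) (β a : ι → K) (P : MvPolynomial ι K) (s : ι →₀ ℕ) :
    coeff s (Del δ β a P) = δ (coeff s P) + ((∑ x, β x * s x) * coeff s P +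
      ∑ x, a x * (coeff (s + Finsupp.single x 1) P * ((s x : K) + 1))) := by
  rw [Del, coeff_add, coeff_cmap, coeff_sum]
  congr 1
  rw [Finset.sum_mul, ← Finset.sum_add_distrib]
  refine Finset.sum_congr rfl fun x _ => ?_
  rw [add_mul, coeff_add, mul_assoc, coeff_C_mul, coeff_X_pderiv, coeff_C_mul, coeff_pderiv]
  ring

theorem Del_add (δ : K →+ K) (β a : ι → K) (P Q : MvPolynomial ι K) : Del δ β a (P + Q) = Del δ β a P + Del δ β a Q := by
  simp only [Del, cmap_add, map_add, mul_add, Finset.sum_add_distrib]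
  ring

theorem Del_C (δ : K →+ K) (β a : ι → K) (c : K) : Del δ β a (C c) = C (δ c) := by
  simp [Del, cmap_C]

theorem Del_mul_X (δ : K →+ K) (β a : ι → K) (P : MvPolynomial ι K) (i : ι) :
    Del δ β a (P * X i) = Del δ β a P * X i + P * (C (β i) * X i + C (a i)) := by
  simp only [Del, cmap_mul_X, Derivation.leibniz, smul_eq_mul, add_mul, Finset.sum_mul]
  rw [add_assoc]
  congr 1
  have h : ∀ x, (C (β x) * X x + C (a x)) * (P * pderiv x (X i) + X i * pderiv x P) =
      (C (β x) * X x + C (a x)) * pderiv x P * X i + (if x = i then P * (C (β i) * X i + C (a i)) else 0) := by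
    intro x
    rw [pderiv_X]
    by_cases hx : x = i
    · subst hx
      simp only [Pi.single_eq_same, if_true]
      ring
    · simp only [Pi.single_apply, if_neg (Ne.symm hx), if_neg hx]
      ring
  have h2 : ∑ x, (C (β x) * X x + C (a x)) * (P * pderiv x (X i) + X i * pderiv x P) =
      ∑ x, (C (β x) * X x + C (a x)) * pderiv x P * X i + P * (C (β i) * X i + C (a i)) := by
    rw [Finset.sum_congr rfl fun x _ => h x, Finset.sum_add_distrib]
    simp
  simp only [add_mul] at h2 ⊢
  exact h2

theorem aeval_Del {G : Type} [CommRing G] [Algebra K G] (δ : K →+ K) (D : G →+ G)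
    (hD : ∀ x y, D (x * y) = D x * y + x * D y) (hDK : ∀ x, D (algebraMap K G x) = algebraMap K G (δ x))
    (v : ι → G) (β a : ι → K) (hv : ∀ i, D (v i) = algebraMap K G (β i) * v i + algebraMap K G (a i))
    (P : MvPolynomial ι K) : aeval v (Del δ β a P) = D (aeval v P) := by
  induction P using MvPolynomial.induction_on with
  | C c => rw [Del_C, aeval_C, aeval_C, hDK]
  | add P Q hP hQ => rw [Del_add, map_add, map_add, map_add, hP, hQ]
  | mul_X P i hP =>
    rw [Del_mul_X, map_add, map_mul, map_mul, map_mul, hP, hD, aeval_X, hv]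
    simp

end Op

variable {κ μ K G : Type} [Fintype κ] [DecidableEq κ] [Fintype μ] [DecidableEq μ] [Field K] [CommRing G] [Nontrivial G]
  [Algebra K G]

/-- degree in the first variables -/
def dk (s : κ ⊕ μ →₀ ℕ) : ℕ := ∑ i, s (Sum.inl i)

theorem dk_add (s t : κ ⊕ μ →₀ ℕ) : dk (s + t) = dk s + dk t := by
  simp [dk, Finset.sum_add_distrib]

theorem dk_inl (i : κ) : dk (Finsupp.single (Sum.inl i) 1 : κ ⊕ μ →₀ ℕ) = 1 := by
  simp [dk, Finsupp.single_apply, Sum.inl.injEq]

/-- **Solutions of linear differential equations of order one.** -/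
theorem mixD [CharZero K] (δ : K →+ K) (hδ : ∀ x y, δ (x * y) = δ x * y + x * δ y) (D : G →+ G)
    (hD : ∀ x y, D (x * y) = D x * y + x * D y) (hDK : ∀ x, D (algebraMap K G x) = algebraMap K G (δ x))
    (f : κ → G) (β a : κ → K) (hf : ∀ i, D (f i) = algebraMap K G (β i) * f i + algebraMap K G (a i))
    (g : μ → G) (b : μ → K) (hg : ∀ j, D (g j) = algebraMap K G (b j) * g j) (hu : ∀ j, IsUnit (g j))
    (hA : ∀ (i0 : κ) (c : κ → K) (h : K), c i0 ≠ 0 → (∀ i, δ (c i) = (β i0 - β i) * c i) →
      ∑ i, a i * c i ≠ β i0 * h - δ h)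
    (hM : ∀ (e e' : μ → ℕ) (c : K), c ≠ 0 → δ c = (∑ j, b j * e' j - ∑ j, b j * e j) * c → e = e') :
    AlgebraicIndependent K (Sum.elim f g) := by
  classical
  rw [algebraicIndependent_iff]
  by_contra hcon
  push Not at hcon
  have hδ1 : δ 1 = 0 := by
    have := hδ 1 1
    simp only [mul_one, one_mul] at this
    exact left_eq_add.1 this
  set v : κ ⊕ μ → G := Sum.elim f g with hv
  set β' : κ ⊕ μ → K := Sum.elim β b with hβ'
  set a' : κ ⊕ μ → K := Sum.elim a (fun _ => 0) with ha'
  have hvD : ∀ x, D (v x) = algebraMap K G (β' x) * v x + algebraMap K G (a' x) := by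
    rintro (i | j)
    · exact hf i
    · simp [hv, hβ', ha', hg]
  let I : Set (MvPolynomial (κ ⊕ μ) K) := {P | aeval v P = 0 ∧ P ≠ 0}
  have hI : I.Nonempty := hcon
  let N : MvPolynomial (κ ⊕ μ) K → ℕ := fun P => P.support.sup dk
  let top : MvPolynomial (κ ⊕ μ) K → Finset (κ ⊕ μ →₀ ℕ) := fun P => P.support.filter fun s => dk s = N P
  let ν : MvPolynomial (κ ⊕ μ) K → ℕ ×ₗ ℕ := fun P => toLex (N P, (top P).card)
  obtain ⟨P, hP, hmin⟩ : ∃ P ∈ I, ∀ Q ∈ I, ¬ ν Q < ν P :=
    ⟨Function.argminOn ν I hI, Function.argminOn_mem ν I hI, fun Q hQ => Function.not_lt_argminOn ν I hQ⟩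
  obtain ⟨hP0, hPne⟩ := hP
  obtain ⟨s0, hs0, hs0d⟩ := Finset.exists_mem_eq_sup P.support (support_nonempty.2 hPne) dk
  set n := N P with hn
  have hs0n : dk s0 = n := hs0d.symm
  have hc0 : coeff s0 P ≠ 0 := mem_support_iff.1 hs0
  set P' := C (coeff s0 P)⁻¹ * P with hP'
  have hco : ∀ s, coeff s P' = (coeff s0 P)⁻¹ * coeff s P := fun s => by rw [hP', coeff_C_mul]
  have hsupp : ∀ s, coeff s P' ≠ 0 ↔ coeff s P ≠ 0 := fun s => by
    rw [hco]
    constructor
    · intro h h'
      exact h (by rw [h', mul_zero])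
    · intro h
      exact mul_ne_zero (inv_ne_zero hc0) h
  have hbig : ∀ s, n < dk s → coeff s P' = 0 := by
    intro s hs
    by_contra hne
    exact absurd (Finset.le_sup (f := dk) (mem_support_iff.2 ((hsupp s).1 hne))) (not_le.2 hs)
  have hP'0 : aeval v P' = 0 := by rw [hP', map_mul, hP0, mul_zero]
  have hone : coeff s0 P' = 1 := by rw [hco, inv_mul_cancel₀ hc0]
  clear_value P'
  set lam := ∑ x, β' x * s0 x with hlam
  have hQc : ∀ s, n ≤ dk s → coeff s (Del δ β' a' P' - C lam * P') =
      δ (coeff s P') + (∑ x, β' x * s x - lam) * coeff s P' := by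
    intro s hs
    have h0 : ∑ x, a' x * (coeff (s + Finsupp.single x 1) P' * ((s x : K) + 1)) = 0 := by
      refine Finset.sum_eq_zero fun x _ => ?_
      rcases x with i | j
      · rw [hbig _ (by rw [dk_add, dk_inl]; omega)]
        simp
      · simp [ha']
    rw [coeff_sub, coeff_Del, coeff_C_mul, h0]
    ring
  have hQ : Del δ β' a' P' - C lam * P' = 0 := by
    by_contra hQne
    have hQI : Del δ β' a' P' - C lam * P' ∈ I := by
      refine ⟨?_, hQne⟩
      rw [map_sub, aeval_Del δ D hD hDK v β' a' hvD, hP'0, map_zero, map_mul (aeval v) (C lam) P', hP'0, mul_zero, sub_zero]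
    have hQs : ∀ s, n ≤ dk s → coeff s (Del δ β' a' P' - C lam * P') ≠ 0 → coeff s P ≠ 0 ∧ s ≠ s0 := by
      intro s hs hne
      rw [hQc s hs] at hne
      refine ⟨fun h => hne ?_, fun h => hne ?_⟩
      · have : coeff s P' = 0 := by rw [hco, h, mul_zero]
        rw [this]
        simp
      · rw [h, hone, hδ1, hlam]
        simp
    have hle : N (Del δ β' a' P' - C lam * P') ≤ n := by
      refine Finset.sup_le fun s hs => ?_
      by_contra hlt
      push Not at hlt
      exact (hQs s hlt.le (mem_support_iff.1 hs)).1 (by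
        by_contra hne
        exact absurd (Finset.le_sup (f := dk) (mem_support_iff.2 hne)) (not_le.2 hlt))
    rcases lt_or_eq_of_le hle with hlt | heq
    · exact hmin _ hQI (Prod.Lex.toLex_lt_toLex.2 (Or.inl hlt))
    · refine hmin _ hQI (Prod.Lex.toLex_lt_toLex.2 (Or.inr ⟨heq, ?_⟩))
      refine Finset.card_lt_card ?_
      rw [Finset.ssubset_iff_of_subset]
      · refine ⟨s0, Finset.mem_filter.2 ⟨hs0, hs0n⟩, ?_⟩
        intro hmem
        have h1 := Finset.mem_filter.1 hmem
        exact (hQs s0 hs0n.ge (mem_support_iff.1 h1.1)).2 rfl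
      · intro s hs
        have h1 := Finset.mem_filter.1 hs
        have h2 : dk s = n := h1.2.trans heq
        exact Finset.mem_filter.2 ⟨mem_support_iff.2 (hQs s h2.ge (mem_support_iff.1 h1.1)).1, h2⟩
  have hrel : ∀ s, n ≤ dk s → δ (coeff s P') = (lam - ∑ x, β' x * s x) * coeff s P' := by
    intro s hs
    have h1 := hQc s hs
    rw [hQ, coeff_zero] at h1
    linear_combination -h1
  rcases Nat.eq_zero_or_pos n with hn0 | hn0
  · -- constant in the first variables
    have hp : P' = monomial s0 1 := by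
      refine MvPolynomial.ext _ _ fun s => ?_
      rw [coeff_monomial]
      split_ifs with he
      · rw [← he]
        exact hone
      · by_contra hne
        apply he
        have hd0 : ∀ t : κ ⊕ μ →₀ ℕ, dk t = 0 → ∀ i, t (Sum.inl i) = 0 := fun t ht i =>
          (Finset.sum_eq_zero_iff.1 ht) i (Finset.mem_univ _)
        have hds : dk s = 0 := by
          by_contra h
          exact hne (hbig s (by omega))
        have h1 := hrel s (by omega)
        have h2 := hM (fun j => s (Sum.inr j)) (fun j => s0 (Sum.inr j)) (coeff s P') hne (by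
          rw [h1, hlam]
          congr 1
          simp [hβ', hd0 s hds, hd0 s0 (by omega)])
        refine Finsupp.ext fun x => ?_
        rcases x with i | j
        · rw [hd0 s hds, hd0 s0 (by omega)]
        · exact (congrFun h2 j).symm
    have hd0 : ∀ i, s0 (Sum.inl i) = 0 := fun i =>
      (Finset.sum_eq_zero_iff.1 (show ∑ i, s0 (Sum.inl i) = 0 by rw [← hn0, ← hs0n]; rfl)) i (Finset.mem_univ _)
    have h2 : aeval v P' = ∏ j, g j ^ s0 (Sum.inr j) := by
      rw [hp, aeval_monomial, map_one, one_mul, Finsupp.prod_fintype _ _ (fun _ => pow_zero _), Fintype.prod_sum_type]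
      simp [hv, hd0]
    rw [h2] at hP'0
    have h3 : IsUnit (∏ j, g j ^ s0 (Sum.inr j)) :=
      Finset.prod_induction _ IsUnit (fun _ _ h h' => h.mul h') isUnit_one fun j _ => (hu j).pow _
    rw [hP'0] at h3
    exact not_isUnit_zero h3
  · obtain ⟨i0, hi0⟩ : ∃ i, s0 (Sum.inl i) ≠ 0 := by
      by_contra hcon
      push Not at hcon
      have : dk s0 = 0 := Finset.sum_eq_zero fun i _ => hcon i
      omega
    set s1 := s0 - Finsupp.single (Sum.inl i0) 1 with hs1
    have hadd : s1 + Finsupp.single (Sum.inl i0) 1 = s0 := by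
      apply tsub_add_cancel_of_le
      rw [Finsupp.single_le_iff]
      exact Nat.one_le_iff_ne_zero.2 hi0
    have hdeg : dk s0 = dk s1 + 1 := by
      conv_lhs => rw [← hadd]
      rw [dk_add, dk_inl]
    have hsum : ∀ x, ∑ y, β' y * ((s1 + Finsupp.single x 1 : κ ⊕ μ →₀ ℕ) y : K) = ∑ y, β' y * s1 y + β' x := by
      intro x
      simp only [Finsupp.add_apply, Nat.cast_add, mul_add, Finset.sum_add_distrib]
      congr 1
      simp [Finsupp.single_apply]
    have hlam1 : lam = ∑ y, β' y * s1 y + β i0 := by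
      rw [hlam, ← hadd, hsum]
      rfl
    refine hA i0 (fun i => coeff (s1 + Finsupp.single (Sum.inl i) 1) P' * ((s1 (Sum.inl i) : K) + 1))
      (coeff s1 P') ?_ ?_ ?_
    · simp only [hadd, hone, one_mul]
      exact Nat.cast_add_one_ne_zero _
    · intro i
      have hz : δ ((s1 (Sum.inl i) : K) + 1) = 0 := by
        have hnat : ∀ m : ℕ, δ (m : K) = 0 := by
          intro m
          induction m with
          | zero => simp
          | succ m ih => rw [Nat.cast_succ, map_add, ih, hδ1, add_zero]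
        rw [map_add, hnat, hδ1, add_zero]
      rw [hδ, hz, mul_zero, add_zero, hrel _ (by rw [dk_add, dk_inl]; omega), hsum, hlam1]
      simp only [hβ', Sum.elim_inl]
      ring
    · have h1 : coeff s1 (Del δ β' a' P' - C lam * P') = 0 := by rw [hQ, coeff_zero]
      rw [coeff_sub, coeff_Del, coeff_C_mul, Fintype.sum_sum_type (fun x => a' x * _)] at h1
      simp only [ha', Sum.elim_inl, Sum.elim_inr, zero_mul, Finset.sum_const_zero, add_zero] at h1
      rw [hlam1] at h1
      linear_combination h1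

end Pool.Agent.Q23.DD
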