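import Pool.Agent.Q23.DD.Germ

/-!
# Linear differential equations of order one over `ℂ(z)`: rational solutions
-/

set_option autoImplicit false

open Polynomial

namespace Pool.Agent.Q23.DD

theorem exists_coprime (x : KC) : ∃ P Q : ℂ[X], Q ≠ 0 ∧ IsCoprime P Q ∧ x = algebraMap ℂ[X] KC P / algebraMap ℂ[X] KC Q := by
  obtain ⟨a, b, hab, hx⟩ := IsFractionRing.exists_reduced_fraction (A := ℂ[X]) x
  refine ⟨a, b, nonZeroDivisors.ne_zero b.2, hab.isCoprime, ?_⟩
  rw [← hx, IsFractionRing.mk'_eq_div]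

theorem eq_C_of_deriv {P : ℂ[X]} (h : derivative P = 0) : ∃ a : ℂ, P = C a :=
  ⟨P.coeff 0, eq_C_of_natDegree_eq_zero (natDegree_eq_zero_of_derivative_eq_zero h)⟩

/-- nonzero solutions of `c' = q c`, `q` a polynomial -/
theorem semi {c : KC} (hc : c ≠ 0) {q : ℂ[X]} (h : delta c = algebraMap ℂ[X] KC q * c) :
    q = 0 ∧ ∃ r : ℂ, c = algebraMap ℂ[X] KC (C r) := by
  obtain ⟨P, Q, hQ, hcop, rfl⟩ := exists_coprime c
  have hQ' := alg_ne hQ
  have h1 : derivative P * Q - P * derivative Q = q * P * Q := by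
    apply alg_inj
    rw [delta_div P Q hQ, div_eq_iff (pow_ne_zero 2 hQ')] at h
    rw [h]
    simp only [map_mul]
    field_simp
  have hP : P ≠ 0 := by
    intro hP
    apply hc
    rw [hP, map_zero, zero_div]
  have h2 : derivative Q = 0 := by
    rw [← dvd_derivative_iff]
    have h3 : Q ∣ P * derivative Q := ⟨derivative P - q * P, by linear_combination -h1⟩
    exact hcop.symm.dvd_of_dvd_mul_left h3
  have h3 : derivative P = 0 := by
    rw [← dvd_derivative_iff]
    have h3 : P ∣ derivative P * Q := ⟨q * Q, by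
      rw [h2] at h1
      linear_combination h1⟩
    exact hcop.dvd_of_dvd_mul_right h3
  have h4 : q = 0 := by
    rw [h2, h3] at h1
    have : q * P * Q = 0 := by linear_combination -h1
    rcases mul_eq_zero.1 this with h | h
    · exact (mul_eq_zero.1 h).resolve_right hP
    · exact absurd h hQ
  obtain ⟨a, ha⟩ := eq_C_of_deriv h3
  obtain ⟨b, hb⟩ := eq_C_of_deriv h2
  have hb0 : b ≠ 0 := by
    rintro rfl
    exact hQ (by rw [hb, C_0])
  refine ⟨h4, a / b, ?_⟩
  rw [div_eq_iff hQ', ha, hb, ← map_mul, ← C_mul, div_mul_cancel₀ _ hb0]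

theorem clear1 {K : Type} [Field K] (φ : ℂ[X] →+* K) (hφ : Function.Injective φ) {W Q N0 p q P P' Q' : ℂ[X]} (hW : W ≠ 0)
    (hQ : Q ≠ 0) (H : φ N0 / φ W + φ p = -(φ q * (φ P / φ Q)) - φ (P' * Q - P * Q') / φ Q ^ 2) :
    W * (P' * Q - P * Q' + q * P * Q) = -((N0 + p * W) * Q ^ 2) := by
  have hW' : φ W ≠ 0 := fun h => hW (hφ (by rw [h, map_zero]))
  have hQ' : φ Q ≠ 0 := fun h => hQ (hφ (by rw [h, map_zero]))
  apply hφ
  simp only [map_add, map_neg, map_mul, map_pow, map_sub] at H ⊢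
  field_simp at H
  linear_combination H

theorem clear2 {K : Type} [Field K] (φ : ℂ[X] →+* K) (hφ : Function.Injective φ) {r : ℕ} (w : Fin r → ℂ) (c : Fin r → ℂ) :
    ∑ i, φ (C (c i)) / φ (X - C (w i)) =
      φ (∑ i, C (c i) * ∏ j ∈ Finset.univ.erase i, (X - C (w j))) / φ (∏ i, (X - C (w i))) := by
  have hne : ∀ P : ℂ[X], P ≠ 0 → φ P ≠ 0 := fun P hP h => hP (hφ (by rw [h, map_zero]))
  rw [map_sum, Finset.sum_div]
  refine Finset.sum_congr rfl fun i _ => ?_
  rw [div_eq_div_iff (hne _ (X_sub_C_ne_zero _)) (hne _ (Finset.prod_ne_zero_iff.2 fun i _ => X_sub_C_ne_zero _)),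
    ← Finset.mul_prod_erase _ _ (Finset.mem_univ i)]
  simp only [map_mul]
  ring

theorem noprim_poly {r : ℕ} (w : Fin r → ℂ) (hw : Function.Injective w) (q : ℂ[X]) (c : Fin r → ℂ) (p : ℂ[X])
    (hp : p ≠ 0 → p.natDegree < q.natDegree) (P Q : ℂ[X]) (hQ : Q ≠ 0) (hcop : IsCoprime P Q) (W N : ℂ[X])
    (hW : W = ∏ i, (X - C (w i))) (hN : N = ∑ i, C (c i) * ∏ j ∈ Finset.univ.erase i, (X - C (w j)) + p * W)
    (h1 : W * (derivative P * Q - P * derivative Q + q * P * Q) = -(N * Q ^ 2)) : c = 0 ∧ p = 0 := by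
  classical
  have hW0 : W ≠ 0 := hW ▸ Finset.prod_ne_zero_iff.2 fun i _ => X_sub_C_ne_zero _
  have hWe : ∀ i, (X - C (w i)) * ∏ j ∈ Finset.univ.erase i, (X - C (w j)) = W := fun i => by
    rw [hW]
    exact Finset.mul_prod_erase Finset.univ (fun i => X - C (w i)) (Finset.mem_univ i)
  -- the denominator has no roots
  have hroot : ∀ x, ¬ Q.IsRoot x := by
    intro x hx
    obtain ⟨m, hm⟩ : ∃ m, m = rootMultiplicity x Q := ⟨_, rfl⟩
    have hm1 : 1 ≤ m := hm ▸ (rootMultiplicity_pos hQ).2 hx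
    obtain ⟨S, hS⟩ : (X - C x) ^ m ∣ Q := hm ▸ pow_rootMultiplicity_dvd Q x
    have hSx : S.eval x ≠ 0 := by
      intro h0
      have h3 : (X - C x) ^ (m + 1) ∣ Q := by
        obtain ⟨S', hS'⟩ := dvd_iff_isRoot.2 h0
        exact ⟨S', by rw [hS, hS']; ring⟩
      exact absurd ((le_rootMultiplicity_iff hQ).2 h3) (by omega)
    have hPx : P.eval x ≠ 0 := by
      intro h0
      obtain ⟨u, v, huv⟩ := hcop
      have := congrArg (eval x) huv
      rw [eval_add, eval_mul, eval_mul, h0, hx.eq_zero] at this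
      simp at this
    obtain ⟨m', hm'⟩ : ∃ m', m = m' + 1 := ⟨m - 1, by omega⟩
    have hS1 : Q = (X - C x) ^ (m' + 1) * S := by rw [← hm']; exact hS
    obtain ⟨B, hB⟩ : ∃ B, B = derivative P * (X - C x) * S - P * ((m' + 1 : ℕ) : ℂ[X]) * S -
      P * (X - C x) * derivative S + q * P * (X - C x) * S := ⟨_, rfl⟩
    have hE : derivative P * Q - P * derivative Q + q * P * Q = (X - C x) ^ m' * B := by
      rw [hS1, derivative_mul, derivative_X_sub_C_pow, hB]
      simp only [Nat.add_sub_cancel]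
      push_cast
      simp only [map_add, map_one, map_natCast]
      ring
    have hBx : B.eval x ≠ 0 := by
      rw [hB]
      simp only [eval_add, eval_sub, eval_mul, eval_X, eval_C, sub_self, mul_zero, zero_mul, zero_sub, sub_zero, add_zero,
        eval_natCast]
      exact neg_ne_zero.2 (mul_ne_zero (mul_ne_zero hPx (Nat.cast_ne_zero.2 (Nat.succ_ne_zero m'))) hSx)
    have hB0 : B ≠ 0 := by
      intro h0
      rw [h0, eval_zero] at hBx
      exact hBx rfl
    have hWm : rootMultiplicity x W ≤ 1 := by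
      have hnd : (Finset.univ.val.map w).Nodup := Multiset.Nodup.map hw Finset.univ.nodup
      have hWr : W = ((Finset.univ.val.map w).map fun a => X - C a).prod := by
        rw [hW, Multiset.map_map]
        rfl
      rw [← count_roots, hWr, roots_multiset_prod_X_sub_C]
      exact Multiset.nodup_iff_count_le_one.1 hnd x
    have hX0 : (X - C x) ^ m' ≠ 0 := pow_ne_zero _ (X_sub_C_ne_zero x)
    rw [hE] at h1
    have hL : W * ((X - C x) ^ m' * B) ≠ 0 := mul_ne_zero hW0 (mul_ne_zero hX0 hB0)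
    have hmult : rootMultiplicity x (W * ((X - C x) ^ m' * B)) = rootMultiplicity x W + m' := by
      rw [rootMultiplicity_mul hL, rootMultiplicity_mul (mul_ne_zero hX0 hB0), rootMultiplicity_X_sub_C_pow,
        rootMultiplicity_eq_zero (p := B) hBx, add_zero]
    have hdvd : (X - C x) ^ (2 * (m' + 1)) ∣ W * ((X - C x) ^ m' * B) := by
      rw [h1]
      refine (dvd_neg).2 (Dvd.dvd.mul_left ?_ N)
      rw [hS1]
      exact ⟨S ^ 2, by ring⟩
    have := (le_rootMultiplicity_iff hL).2 hdvd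
    omega
  obtain ⟨b, hb⟩ : ∃ b, Q = C b := by
    refine ⟨Q.coeff 0, eq_C_of_degree_eq_zero ?_⟩
    by_contra hd
    obtain ⟨x, hx⟩ := IsAlgClosed.exists_root Q hd
    exact hroot x hx
  have hb0 : b ≠ 0 := by
    rintro rfl
    exact hQ (by rw [hb, C_0])
  have h5 : W * (derivative P + q * P) = -(N * C b) := by
    rw [hb] at h1
    have h6 : C b * (W * (derivative P + q * P)) = C b * -(N * C b) := by
      rw [derivative_C] at h1
      linear_combination h1
    exact mul_left_cancel₀ (C_ne_zero.2 hb0) h6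
  have hc : c = 0 := by
    funext i
    have h7 := congrArg (eval (w i)) h5
    have hWi : W.eval (w i) = 0 := by
      rw [← hWe i]
      simp
    have hNi : N.eval (w i) = c i * ∏ j ∈ Finset.univ.erase i, (w i - w j) := by
      rw [hN, eval_add, eval_mul, hWi, mul_zero, add_zero, eval_finsetSum, Finset.sum_eq_single i]
      · rw [eval_mul, eval_C, eval_prod]
        simp
      · intro j _ hj
        rw [eval_mul, eval_prod, Finset.prod_eq_zero (Finset.mem_erase.2 ⟨Ne.symm hj, Finset.mem_univ i⟩) (by simp), mul_zero]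
      · intro h
        exact absurd (Finset.mem_univ i) h
    rw [eval_mul, hWi, zero_mul, eval_neg, eval_mul, eval_C, hNi] at h7
    have h8 : c i * (∏ j ∈ Finset.univ.erase i, (w i - w j)) * b = 0 := by linear_combination h7
    have h9 : ∏ j ∈ Finset.univ.erase i, (w i - w j) ≠ 0 := Finset.prod_ne_zero_iff.2 fun j hj =>
      sub_ne_zero.2 fun h => (Finset.mem_erase.1 hj).1 (hw h).symm
    rcases mul_eq_zero.1 h8 with h | h
    · exact (mul_eq_zero.1 h).resolve_right h9
    · exact absurd h hb0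
  refine ⟨hc, ?_⟩
  have h10 : derivative P + q * P = -(p * C b) := by
    have h11 : N = p * W := by
      rw [hN, hc]
      simp
    rw [h11] at h5
    have : W * (derivative P + q * P) = W * -(p * C b) := by linear_combination h5
    exact mul_left_cancel₀ hW0 this
  by_contra hp0
  have hpd := hp hp0
  have hq0 : q ≠ 0 := by
    rintro rfl
    simp at hpd
  have hP0 : P ≠ 0 := by
    rintro rfl
    simp at h10
    exact h10.elim hp0 hb0
  have hdeg : (derivative P + q * P).natDegree = q.natDegree + P.natDegree := by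
    rw [← natDegree_mul hq0 hP0]
    apply natDegree_add_eq_right_of_natDegree_lt
    rw [natDegree_mul hq0 hP0]
    rcases Nat.eq_zero_or_pos P.natDegree with h0 | h0
    · rw [eq_C_of_natDegree_eq_zero h0]
      simp
      omega
    · exact lt_of_lt_of_le (natDegree_derivative_lt h0.ne') (Nat.le_add_left _ _)
  rw [h10, natDegree_neg, natDegree_mul_C hb0] at hdeg
  omega

/-- no primitives -/
theorem noprim {r : ℕ} (w : Fin r → ℂ) (hw : Function.Injective w) (q : ℂ[X]) (c : Fin r → ℂ) (p : ℂ[X])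
    (hp : p ≠ 0 → p.natDegree < q.natDegree) (h : KC)
    (H : ∑ i, algebraMap ℂ[X] KC (C (c i)) / algebraMap ℂ[X] KC (X - C (w i)) + algebraMap ℂ[X] KC p =
      -(algebraMap ℂ[X] KC q * h) - delta h) : c = 0 ∧ p = 0 := by
  obtain ⟨P, Q, hQ, hcop, hh⟩ := exists_coprime h
  rw [hh, delta_div P Q hQ, clear2 (algebraMap ℂ[X] KC) alg_inj] at H
  exact noprim_poly w hw q c p hp P Q hQ hcop _ _ rfl rfl
    (clear1 (algebraMap ℂ[X] KC) alg_inj (Finset.prod_ne_zero_iff.2 fun i _ => X_sub_C_ne_zero _) hQ H)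

end Pool.Agent.Q23.DD
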