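import Pool.Agent.Q23.DD.Int
import Pool.Agent.Q23.AQ.Str

/-!
# Subfamilies of the family of exponentials, logarithms and exponential integrals
-/

set_option autoImplicit false

open Filter Topology

namespace Pool.Agent.Q23.DD

theorem locInd_congr {κ : Type} [Finite κ] {f g : κ → ℂ → ℂ} {z0 : ℂ} (h : ∀ y, ∀ᶠ z in 𝓝 z0, f y z = g y z)
    (hg : Y124.LocInd g z0) : Y124.LocInd f z0 := by
  intro P hP
  refine hg P ?_
  filter_upwards [hP, eventually_all.2 h] with z hz hz2
  have : (fun o : Option κ => o.elim z fun y => g y z) = fun o => o.elim z fun y => f y z := by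
    funext o
    rcases o with _ | y
    · rfl
    · exact (hz2 y).symm
  rw [this]
  exact hz

/-- local primitives -/
theorem exists_prim (h : ℂ → ℂ) (z0 : ℂ) (hh : AnalyticAt ℂ h z0) :
    ∃ g : ℂ → ℂ, AnalyticAt ℂ g z0 ∧ ∀ᶠ z in 𝓝 z0, deriv g z = h z := by
  obtain ⟨R, hR, hball⟩ := Metric.eventually_nhds_iff_ball.1 hh.eventually_analyticAt
  obtain ⟨g, hg⟩ := DifferentiableOn.isExactOn_ball (c := z0) (r := R) (f := h)
    (fun z hz => (hball z hz).differentiableAt.differentiableWithinAt)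
  have hmem : ∀ᶠ z in 𝓝 z0, z ∈ Metric.ball z0 R := Metric.ball_mem_nhds z0 hR
  refine ⟨g, ?_, ?_⟩
  · refine Complex.analyticAt_iff_eventually_differentiableAt.2 ?_
    filter_upwards [hmem] with z hz
    exact (hg z hz).differentiableAt
  · filter_upwards [hmem] with z hz
    exact (hg z hz).deriv

theorem not_pole {U : Set ℂ} (hU : IsOpen U) (f g : ℂ → ℂ) (w : ℂ) (hw : w ∈ U) (hg : ContinuousAt g w)
    (hg0 : g w ≠ 0) (h : ∀ z ∈ U, HasDerivAt f (g z / (z - w)) z) : False := by
  have hd : DifferentiableOn ℂ f U := fun z hz => (h z hz).differentiableAt.differentiableWithinAt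
  have han : AnalyticAt ℂ f w := (hd.analyticOnNhd hU) w hw
  have h1 : ContinuousAt (fun z => deriv f z * (z - w)) w :=
    han.deriv.continuousAt.mul (continuousAt_id.sub continuousAt_const)
  have h2 : Tendsto (fun z => deriv f z * (z - w)) (𝓝[≠] w) (𝓝 0) := by
    have := h1.tendsto.mono_left (nhdsWithin_le_nhds (s := {w}ᶜ))
    simpa using this
  have h3 : Tendsto g (𝓝[≠] w) (𝓝 (g w)) := hg.tendsto.mono_left nhdsWithin_le_nhds
  have h4 : (fun z => deriv f z * (z - w)) =ᶠ[𝓝[≠] w] g := by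
    filter_upwards [nhdsWithin_le_nhds (hU.mem_nhds hw), self_mem_nhdsWithin] with z hz hz2
    rw [(h z hz).deriv, div_mul_cancel₀ _ (sub_ne_zero.2 hz2)]
  exact hg0 (tendsto_nhds_unique (h3.congr' h4.symm) h2)

/-- the code of an index -/
def code {m s d r : ℕ} {Q : Fin s → Polynomial ℂ} : Ik Q d r ⊕ Fin m → Fin m ⊕ (Fin s × ℕ) ⊕ (Fin s × Fin r)
  | Sum.inl (Sum.inl x) => Sum.inr (Sum.inl (x.1.1, x.1.2))
  | Sum.inl (Sum.inr x) => Sum.inr (Sum.inr x)
  | Sum.inr j => Sum.inl j

theorem expint_sub {κ : Type} [Finite κ] {m s r : ℕ} (p : Fin m → Polynomial ℂ)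
    (hp : ∀ k : Fin m → ℤ, (∑ j, Polynomial.C (k j : ℂ) * p j).natDegree = 0 → k = 0)
    (n : Fin s → Fin m → ℤ) (hn : Function.Injective n) (Q : Fin s → Polynomial ℂ)
    (hQ : ∀ l, Q l = ∑ j, Polynomial.C (n l j : ℂ) * p j)
    (w : Fin r → ℂ) (hw : Function.Injective w) (U : Set ℂ) (hU : IsOpen U)
    (e : κ → Fin m ⊕ (Fin s × ℕ) ⊕ (Fin s × Fin r)) (he : Function.Injective e) (f : κ → ℂ → ℂ)
    (h1 : ∀ y j, e y = Sum.inl j → ∀ z ∈ U, f y z = Complex.exp ((p j).eval z))
    (h2 : ∀ y l k, e y = Sum.inr (Sum.inl (l, k)) → k + 2 ≤ (Q l).natDegree ∧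
      ∀ z ∈ U, HasDerivAt (f y) (z ^ k * Complex.exp ((Q l).eval z)) z)
    (h3 : ∀ y l i, e y = Sum.inr (Sum.inr (l, i)) →
      ∀ z ∈ U, HasDerivAt (f y) (Complex.exp ((Q l).eval z) / (z - w i)) z) :
    ∀ z0 ∈ U, Y124.LocInd f z0 := by
  classical
  intro z0 hz0
  have hUn := hU.mem_nhds hz0
  have hQan : ∀ l z, AnalyticAt ℂ (fun z => Complex.exp ((Q l).eval z)) z := fun l z =>
    (AnalyticOnNhd.eval_polynomial (Q l) z (Set.mem_univ _)).cexp
  -- the degree
  obtain ⟨d, hd⟩ : ∃ d : ℕ, ∀ y l k, e y = Sum.inr (Sum.inl (l, k)) → k < d := by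
    cases nonempty_fintype κ
    refine ⟨∑ l, (Q l).natDegree, fun y l k h => ?_⟩
    have h4 := (h2 y l k h).1
    have h5 : (Q l).natDegree ≤ ∑ l, (Q l).natDegree :=
      Finset.single_le_sum (f := fun l => (Q l).natDegree) (fun _ _ => Nat.zero_le _) (Finset.mem_univ l)
    omega
  -- the poles
  obtain ⟨c, hc⟩ := (Set.finite_range w |>.union (Set.finite_singleton z0)).exists_notMem
  simp only [Set.mem_union, Set.mem_range, Set.mem_singleton_iff, not_or, not_exists] at hc
  let w' : Fin r → ℂ := fun i => if w i = z0 then c else w i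
  have hw' : Function.Injective w' := by
    intro i j hij
    simp only [w'] at hij
    split_ifs at hij with a b b
    · exact hw (a.trans b.symm)
    · exact absurd hij.symm (hc.1 j)
    · exact absurd hij (hc.1 i)
    · exact hw hij
  have hw0 : ∀ i, w' i ≠ z0 := by
    intro i
    simp only [w']
    split_ifs with a
    · exact hc.2
    · exact a
  have hused : ∀ y l i, e y = Sum.inr (Sum.inr (l, i)) → w' i = w i := by
    intro y l i h
    simp only [w']
    split_ifs with a
    · exfalso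
      exact not_pole hU (f y) (fun z => Complex.exp ((Q l).eval z)) (w i) (a ▸ hz0) (hQan l _).continuousAt
        (Complex.exp_ne_zero _) (h3 y l i h)
    · rfl
  -- analyticity of the factors
  have hafun : ∀ x : Ik Q d r, AnalyticAt ℂ (afun w' x) z0 := by
    rintro (x | x)
    · exact analyticAt_id.pow _
    · refine AnalyticAt.div analyticAt_const (analyticAt_id.sub analyticAt_const) ?_
      exact sub_ne_zero.2 (hw0 x.2).symm
  -- the functions
  have hex : ∀ x : Ik Q d r, ∃ g : ℂ → ℂ, AnalyticAt ℂ g z0 ∧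
      (∀ᶠ z in 𝓝 z0, deriv g z = afun w' x z * Complex.exp ((Q (pidx x)).eval z)) ∧
      ∀ y, e y = code (m := m) (Sum.inl x) → f y = g := by
    intro x
    by_cases hx : ∃ y, e y = code (m := m) (Sum.inl x)
    · obtain ⟨y, hy⟩ := hx
      have hder : ∀ z ∈ U, HasDerivAt (f y) (afun w' x z * Complex.exp ((Q (pidx x)).eval z)) z := by
        rcases x with x | x
        · exact (h2 y _ _ hy).2
        · intro z hz
          have h4 := h3 y _ _ hy z hz
          have h5 := hused y _ _ hy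
          simp only [afun, pidx, h5]
          rwa [one_div, inv_mul_eq_div]
      refine ⟨f y, ?_, ?_, fun y' hy' => by rw [he (hy'.trans hy.symm)]⟩
      · have hdf : DifferentiableOn ℂ (f y) U := fun z hz => (hder z hz).differentiableAt.differentiableWithinAt
        exact (hdf.analyticOnNhd hU) z0 hz0
      · filter_upwards [hUn] with z hz
        exact (hder z hz).deriv
    · obtain ⟨g, hg1, hg2⟩ := exists_prim (fun z => afun w' x z * Complex.exp ((Q (pidx x)).eval z)) z0
        ((hafun x).mul (hQan _ _))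
      exact ⟨g, hg1, hg2, fun y hy => absurd ⟨y, hy⟩ hx⟩
  choose E hE1 hE2 hE3 using hex
  have key := expint p hp n hn Q hQ w' hw' z0 E hE1 hE2
  -- the embedding
  have hcode : ∀ y, ∃ x : Ik Q d r ⊕ Fin m, code x = e y := by
    intro y
    rcases hy : e y with j | ⟨l, k⟩ | ⟨l, i⟩
    · exact ⟨Sum.inr j, rfl⟩
    · exact ⟨Sum.inl (Sum.inl ⟨(l, ⟨k, hd y l k hy⟩), (h2 y l k hy).1⟩), rfl⟩
    · exact ⟨Sum.inl (Sum.inr (l, i)), rfl⟩
  choose b hb using hcode
  have hbi : Function.Injective b := fun y y' h => he (by rw [← hb y, ← hb y', h])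
  refine locInd_congr ?_ (AQ.locInd_comp b hbi _ z0 key)
  intro y
  have hy := hb y
  rcases hby : b y with x | j
  · rw [hby] at hy
    rw [hE3 x y hy.symm]
    exact Eventually.of_forall fun z => rfl
  · rw [hby] at hy
    filter_upwards [hUn] with z hz
    exact h1 y j hy.symm z hz

end Pool.Agent.Q23.DD
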